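import Pool.Agent.Lib.MP_fe24f9_co.Dg.Stair

/-! A degenerate staircase graph with as few vertices as possible. -/

set_option autoImplicit false

namespace Pool.Agent.Lib.MP_fe24f9_co.Dg

open Finset

/-- The later neighbours of `i` among `0, …, t + 1`. -/
def core (c t i : ℕ) : Finset ℕ :=
  (range (t + 2)).filter fun y => i < 2 * c ∧ (y = t + 1 ∨ i + 2 ≤ y ∧
    (i % 2 = 0 ∨ y < 2 * c ∧ (y % 2 = 0 ∨ y + 1 = 2 * c)))

theorem mem_core {c t i y : ℕ} : y ∈ core c t i ↔ y < t + 2 ∧ i < 2 * c ∧ (y = t + 1 ∨ i + 2 ≤ y ∧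
    (i % 2 = 0 ∨ y < 2 * c ∧ (y % 2 = 0 ∨ y + 1 = 2 * c))) := by
  rw [core, mem_filter, mem_range]

variable {c d t r : ℕ}

theorem core_le {i : ℕ} (hi : i ≤ t) : (core c t i).card ≤ D (t - i) := by
  have h : core c t i ⊆ Icc (i + 1) (t + 1) := fun y hy => by
    have := mem_core.1 hy
    exact mem_Icc.2 (by omega)
  have h1 := card_le_card h
  have h2 := D_ge (t - i)
  rw [Nat.card_Icc] at h1
  omega

theorem core_even (hc : 2 * c ≤ t + 1) {j : ℕ} (hj : j < c) :
    t ≤ (core c t (2 * j)).card + 2 * j := by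
  have h : Icc (2 * j + 2) (t + 1) ⊆ core c t (2 * j) := fun y hy => by
    have := mem_Icc.1 hy
    exact mem_core.2 (by omega)
  have h1 := card_le_card h
  rw [Nat.card_Icc] at h1
  omega

theorem core_odd (hc : 2 * c ≤ t + 1) {j : ℕ} (hj : j < c) :
    c ≤ (core c t (2 * j + 1)).card + j := by
  have h := card_le_card_of_injOn (s := Ico j c) (t := core c t (2 * j + 1))
    (fun m => if m = j then t + 1 else if m = j + 1 then 2 * c - 1 else 2 * m)
    (fun m hm => by
      have := mem_Ico.1 (mem_coe.1 hm)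
      refine mem_coe.2 (mem_core.2 ?_)
      dsimp only
      split_ifs <;> omega)
    (fun m hm m' hm' e => by
      have := mem_Ico.1 (mem_coe.1 hm)
      have := mem_Ico.1 (mem_coe.1 hm')
      dsimp only at e
      split_ifs at e <;> omega)
  rw [Nat.card_Ico] at h
  omega

theorem core_sum (hc : 2 * c ≤ t + 1) :
    2 * c * (t + c) + 3 * c ≤ 2 * ∑ i ∈ range (t + 1), (core c t i).card + 3 * c ^ 2 := by
  have h : ∀ m ≤ c, 2 * m * (t + c) + 3 * m ≤
      2 * ∑ i ∈ range (2 * m), (core c t i).card + 3 * m ^ 2 := fun m hm => by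
    induction m with
    | zero => simp
    | succ m ih =>
      have h1 := ih (by omega)
      have h2 := core_even hc (show m < c by omega)
      have h3 := core_odd hc (show m < c by omega)
      rw [show 2 * (m + 1) = 2 * m + 1 + 1 from rfl, sum_range_succ, sum_range_succ]
      nlinarith
  have h1 := sum_le_sum_of_subset (f := fun i => (core c t i).card) (range_subset_range.2 hc)
  have h2 := h c le_rfl
  omega

/-- The number of further neighbours of the vertices before `i`. -/
def off (c t i : ℕ) : ℕ := ∑ k ∈ range i, (D (t - k) - (core c t k).card)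

/-- The further neighbours of `i`. -/
def cyc (c t r i : ℕ) : Finset ℕ :=
  (Ico (off c t i) (off c t (i + 1))).image fun m => t + 2 + m % r

theorem off_succ (i : ℕ) : off c t (i + 1) = off c t i + (D (t - i) - (core c t i).card) :=
  sum_range_succ _ _

theorem off_mono {i j : ℕ} (h : i ≤ j) : off c t i ≤ off c t j :=
  sum_le_sum_of_subset (range_subset_range.2 h)

theorem off_total : off c t (t + 1) + ∑ i ∈ range (t + 1), (core c t i).card =
    ∑ a ∈ range (t + 1), D a := by
  rw [off, ← sum_add_distrib, ← sum_range_reflect D]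
  refine sum_congr rfl fun i hi => ?_
  have := core_le (c := c) (Nat.lt_succ_iff.1 (mem_range.1 hi))
  rw [show t + 1 - 1 - i = t - i from rfl]
  omega

theorem card_cyc (h0 : 0 < c) (hc : 2 * c ≤ t + 1) (hr : D t ≤ t + r) {i : ℕ} (hi : i ≤ t) :
    (core c t i ∪ cyc c t r i).card = D (t - i) := by
  have h1 := core_le (c := c) hi
  have h2 : D (t - i) - (core c t i).card ≤ r := by
    rcases Nat.eq_zero_or_pos i with rfl | h
    · have := core_even hc h0
      rw [mul_zero] at this
      rw [Nat.sub_zero]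
      omega
    · have e1 := D_le (show t - i ≤ t - 1 by omega)
      have e2 := D_succ (t - 1)
      rw [show t - 1 + 1 = t by omega] at e2
      omega
  rw [card_union_of_disjoint, cyc, card_image_of_injOn, Nat.card_Ico, off_succ]
  · omega
  · intro m hm m' hm' e
    rw [off_succ] at hm hm'
    have h3 := Ico_subset_Ico_right (a := off c t i) (Nat.add_le_add_left h2 (off c t i))
    exact Nat.mod_injOn_Ico _ r (h3 hm) (h3 hm') (Nat.add_left_cancel e)
  · refine disjoint_left.2 fun y hy hy' => ?_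
    obtain ⟨m, -, rfl⟩ := mem_image.1 hy'
    have := mem_core.1 hy
    omega

/-- The order in which the vertices are removed. -/
def rk (c t v : ℕ) : ℕ :=
  if t + 2 ≤ v then 3 else if v = t + 1 then 0 else if 2 * c ≤ v + 1 then 1 else 2 * (v % 2)

theorem build_degen (hd : c ≤ d) (hc : 2 * c ≤ t + 1) (hr : 0 < r) (ho : off c t (t + 1) ≤ d * r) :
    Degen d (stair t fun i => core c t i ∪ cyc c t r i) := by
  classical
  intro A hA
  obtain ⟨v, hv, hm⟩ := exists_max_image A (rk c t) hA
  refine ⟨v, hv, ?_⟩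
  have key : ∀ y ∈ A.filter ((stair t fun i => core c t i ∪ cyc c t r i).Adj v),
      rk c t y ≤ rk c t v ∧ (v ≤ t ∧ y ∈ core c t v ∨ y ≤ t ∧ v ∈ core c t y ∨
        (v ≤ t ∧ t + 2 ≤ y) ∨ y ≤ t ∧ ∃ m, off c t y ≤ m ∧ m < off c t (y + 1) ∧
          t + 2 + m % r = v) := fun y hy => by
    obtain ⟨p1, p2⟩ := mem_filter.1 hy
    refine ⟨hm y p1, ?_⟩
    rcases ((SimpleGraph.fromRel_adj _ _ _).1 p2).2 with ⟨e, e'⟩ | ⟨e, e'⟩ <;>
      rcases mem_union.1 e' with e' | e'
    · exact Or.inl ⟨e, e'⟩
    · obtain ⟨m, -, rfl⟩ := mem_image.1 e'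
      exact Or.inr (Or.inr (Or.inl ⟨e, Nat.le_add_right _ _⟩))
    · exact Or.inr (Or.inl ⟨e, e'⟩)
    · obtain ⟨m, hm', e''⟩ := mem_image.1 e'
      exact Or.inr (Or.inr (Or.inr ⟨e, m, (mem_Ico.1 hm').1, (mem_Ico.1 hm').2, e''⟩))
  by_cases h : t + 2 ≤ v
  · have k2 : ∀ y, ∃ m, y ∈ A.filter ((stair t fun i => core c t i ∪ cyc c t r i).Adj v) →
        y ≤ t ∧ off c t y ≤ m ∧ m < off c t (y + 1) ∧ t + 2 + m % r = v := fun y => by
      by_cases hy : y ∈ A.filter ((stair t fun i => core c t i ∪ cyc c t r i).Adj v)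
      · rcases (key y hy).2 with e | e | e | ⟨e, m, e'⟩
        · omega
        · have := mem_core.1 e.2
          omega
        · omega
        · exact ⟨m, fun _ => ⟨e, e'⟩⟩
      · exact ⟨0, fun e => absurd e hy⟩
    choose g hg using k2
    refine (card_le_card_of_injOn (t := range d) (fun y => g y / r) (fun y hy => ?_)
      fun y hy z hz e => ?_).trans_eq (card_range d)
    · obtain ⟨p1, -, p2, -⟩ := hg y hy
      exact mem_coe.2 (mem_range.2 ((Nat.div_lt_iff_lt_mul hr).2
        (p2.trans_le ((off_mono (Nat.succ_le_succ p1)).trans ho))))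
    · obtain ⟨-, p1, p2, p3⟩ := hg y hy
      obtain ⟨-, q1, q2, q3⟩ := hg z hz
      have e1 : g y = g z := by
        rw [← Nat.div_add_mod (g y) r, ← Nat.div_add_mod (g z) r, show g y / r = g z / r from e]
        omega
      rcases lt_trichotomy y z with e2 | e2 | e2
      · have := off_mono (c := c) (t := t) (show y + 1 ≤ z from e2)
        omega
      · exact e2
      · have := off_mono (c := c) (t := t) (show z + 1 ≤ y from e2)
        omega
  · have k2 : ∀ y ∈ A.filter ((stair t fun i => core c t i ∪ cyc c t r i).Adj v),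
        (y = t + 1 ∧ v < 2 * c) ∨ (y + 1 = 2 * c ∧ v % 2 = 1 ∧ v + 3 ≤ 2 * c) ∨
          (y % 2 = 0 ∧ y < 2 * c ∧ (v = t + 1 ∨ v + 2 ≤ y ∨ y + 2 ≤ v)) := fun y hy => by
      obtain ⟨p1, p2⟩ := key y hy
      unfold rk at p1
      rcases p2 with e | e | e | ⟨-, m, -, -, e⟩
      · have := mem_core.1 e.2
        split_ifs at p1 <;> omega
      · have := mem_core.1 e.2
        split_ifs at p1 <;> omega
      · split_ifs at p1 <;> omega
      · omega
    refine (card_le_card_of_injOn (t := range c)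
      (fun y => if y = t + 1 then v / 2 else if y % 2 = 1 then v / 2 + 1 else y / 2)
      (fun y hy => ?_) fun y hy z hz e => ?_).trans ((card_range c).trans_le hd)
    · have := k2 y hy
      refine mem_coe.2 (mem_range.2 ?_)
      dsimp only
      split_ifs <;> omega
    · have := k2 y hy
      have := k2 z hz
      dsimp only at e
      split_ifs at e <;> omega

theorem build (h0 : 0 < c) (hd : c ≤ d) (hc : 2 * c ≤ t + 1) (hr : D t ≤ t + r)
    (hN : 2 * ∑ a ∈ range (t + 1), D a + c ^ 2 ≤ 2 * c * t + 3 * c + 2 * (d * r)) :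
    ∃ H : SimpleGraph (Fin (t + 2 + r)), Degen d H ∧ t + 1 ≤ fdel H := by
  have h1 := D_ge t
  have h2 := core_sum hc
  have h3 := off_total (c := c) (t := t)
  refine exists_fin (build_degen hd hc (r := r) (by omega) (by nlinarith))
    (stair_hard (by omega) (fun i hi => card_cyc h0 hc hr hi) fun i hi y hy => ?_)
  rcases mem_union.1 hy with e | e
  · have := mem_core.1 e
    omega
  · obtain ⟨m, -, rfl⟩ := mem_image.1 e
    have := Nat.mod_lt m (show 0 < r by omega)
    omega

theorem sum_min (d m : ℕ) : 2 * ∑ i ∈ range (d + m), min i d + d = d ^ 2 + 2 * (d * m) := by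
  induction m with
  | zero =>
    rw [add_zero, sum_congr rfl fun i hi => min_eq_left (mem_range.1 hi).le]
    have := sum_range_id_mul_two d
    cases d with
    | zero => simp
    | succ d =>
      rw [Nat.add_sub_cancel] at this
      nlinarith
  | succ m ih =>
    rw [← add_assoc, sum_range_succ, min_eq_right (Nat.le_add_right d m)]
    nlinarith

theorem main (d t n : ℕ) (ht : 1 ≤ t) :
    (∃ G : SimpleGraph (Fin n), Degen d G ∧ t + 1 ≤ fdel G) ↔ (t + 2).choose 2 + 3 ≤ n ∧
      t ^ 3 + 6 * t ^ 2 + 17 * t + 12 ≤ 6 * ∑ i ∈ range n, min i d := by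
  obtain ⟨s1, s2⟩ := six_sum t
  constructor
  · rintro ⟨G, h1, h2⟩
    obtain ⟨-, h3, h4⟩ := low ((lt_fdel G).1 h2)
    have h5 := tot_le h1 univ
    have h6 := h4 ht
    rw [card_univ, Fintype.card_fin] at h5 h6
    unfold D at h6
    omega
  · rintro ⟨h1, h2⟩
    have h3 := D_ge t
    have h4 : D t + 2 ≤ n := h1
    obtain ⟨r, rfl⟩ : ∃ r, n = t + 2 + r := ⟨n - (t + 2), by omega⟩
    by_cases h : 2 * d ≤ t + 1
    · rcases Nat.eq_zero_or_pos d with rfl | h0
      · simp at h2
      obtain ⟨m, hm⟩ : ∃ m, t + 2 + r = d + m := ⟨t + 2 + r - d, by omega⟩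
      have h5 := sum_min d m
      rw [← hm] at h5
      have h6 : d * (t + 2 + r) = d * (d + m) := by rw [hm]
      exact build h0 le_rfl h (by omega) (by nlinarith)
    · refine build one_pos (by omega) (by omega) (by omega) ?_
      have h5 : (t + 2) * (t ^ 2 + t + 4) ≤ 2 * d * (2 * r) := Nat.mul_le_mul (by omega) (by omega)
      have h6 : 5 * t ≤ t ^ 2 + 6 := by
        rcases le_or_gt t 2 with e | e
        · interval_cases t <;> simp
        · obtain ⟨k, rfl⟩ : ∃ k, t = k + 3 := ⟨t - 3, by omega⟩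
          nlinarith
      nlinarith [Nat.mul_le_mul_left (t + 2) h6]

end Pool.Agent.Lib.MP_fe24f9_co.Dg
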