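import Mathlib

set_option autoImplicit false

namespace Pool.Agent.Lib.MP_fe24f9_co.Dg

open Classical in
/-- The number of neighbours of `v` in the vertex set `A`. -/
noncomputable def degIn {V : Type} (G : SimpleGraph V) (A : Finset V) (v : V) : ℕ :=
  (A.filter (G.Adj v)).card

/-- The graph induced on `A` has fewer than two vertices, or two vertices of maximum degree. -/
def Good {V : Type} (G : SimpleGraph V) (A : Finset V) : Prop :=
  A.card < 2 ∨ ∃ u ∈ A, ∃ w ∈ A, u ≠ w ∧ (∀ x ∈ A, degIn G A x ≤ degIn G A u) ∧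
    ∀ x ∈ A, degIn G A x ≤ degIn G A w

/-- The least number of vertices whose deletion leaves such a graph. -/
noncomputable def fdel {n : ℕ} (G : SimpleGraph (Fin n)) : ℕ :=
  sInf {k | ∃ B : Finset (Fin n), B.card = k ∧ Good G Bᶜ}

/-- Every nonempty induced subgraph has a vertex of degree at most `d`. -/
def Degen {V : Type} (d : ℕ) (G : SimpleGraph V) : Prop :=
  ∀ A : Finset V, A.Nonempty → ∃ v ∈ A, degIn G A v ≤ d

end Pool.Agent.Lib.MP_fe24f9_co.Dg
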