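import Pool.Agent.Lib.MP_fe24f9_co.Dg.Defs

/-! Greedy deletion of the vertex of maximum degree. -/

set_option autoImplicit false

namespace Pool.Agent.Lib.MP_fe24f9_co.Dg

open Finset

variable {V : Type} [DecidableEq V] {G : SimpleGraph V} {A : Finset V}

/-- No deletion of at most `t` vertices is enough. -/
def Hard (G : SimpleGraph V) (A : Finset V) (t : ℕ) : Prop :=
  ∀ B : Finset V, B.card ≤ t → ¬Good G (A \ B)

/-- The degree forced at level `a`. -/
def D (a : ℕ) : ℕ := (a + 2).choose 2 + 1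

theorem D_succ (a : ℕ) : D (a + 1) = D a + a + 2 := by
  have h : (a + 1 + 2).choose 2 = (a + 2).choose 1 + (a + 2).choose 2 := Nat.choose_succ_succ' _ _
  rw [Nat.choose_one_right] at h
  unfold D
  omega

theorem D_zero : D 0 = 2 := rfl

theorem six_sum (t : ℕ) : 6 * ∑ a ∈ range (t + 1), D a = t ^ 3 + 6 * t ^ 2 + 17 * t + 12 ∧
    2 * D t = t ^ 2 + 3 * t + 4 := by
  induction t with
  | zero => simp [D_zero]
  | succ t ih =>
    rw [sum_range_succ, D_succ]
    constructor <;> nlinarith [ih.1, ih.2]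

theorem lt_fdel {n t : ℕ} (G : SimpleGraph (Fin n)) : t + 1 ≤ fdel G ↔ Hard G univ t := by
  constructor
  · intro h B hB hG
    have : fdel G ≤ B.card := Nat.sInf_le ⟨B, rfl, by rwa [compl_eq_univ_sdiff]⟩
    omega
  · intro h
    obtain ⟨B, h1, h2⟩ : fdel G ∈ {k | ∃ B : Finset (Fin n), B.card = k ∧ Good G Bᶜ} :=
      Nat.sInf_mem ⟨_, univ, rfl, Or.inl (by simp)⟩
    by_contra hc
    exact h B (by omega) (by rwa [← compl_eq_univ_sdiff])

theorem Hard.erase {t : ℕ} (h : Hard G A (t + 1)) (x : V) : Hard G (A.erase x) t := fun B hB => by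
  rw [erase_sdiff_comm, ← sdiff_insert]
  exact h _ ((card_insert_le _ _).trans (by omega))

theorem Hard.not_good {t : ℕ} (h : Hard G A t) : ¬Good G A := by
  simpa using h ∅ (Nat.zero_le _)

open Classical in
theorem degIn_erase {x : V} (hx : x ∈ A) (v : V) :
    degIn G (A.erase x) v + (if G.Adj v x then 1 else 0) = degIn G A v := by
  unfold degIn
  rw [filter_erase]
  split_ifs with h
  · exact card_erase_add_one (mem_filter.2 ⟨hx, h⟩)
  · rw [erase_eq_of_notMem fun c => h (mem_filter.1 c).2, add_zero]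

omit [DecidableEq V] in
theorem exists_top (h : ¬Good G A) :
    2 ≤ A.card ∧ ∃ u ∈ A, ∀ x ∈ A, x ≠ u → degIn G A x < degIn G A u := by
  have h2 : 2 ≤ A.card := not_lt.1 fun c => h (Or.inl c)
  obtain ⟨u, hu, hm⟩ := exists_max_image A (degIn G A) (card_pos.1 (by omega))
  exact ⟨h2, u, hu, fun x hx hne => not_le.1 fun c =>
    h (Or.inr ⟨x, hx, u, hu, hne, fun y hy => (hm y hy).trans c, hm⟩)⟩

theorem exists_private {u w : V} (hu : u ∈ A) (hw : w ∈ A) (h : degIn G A w < degIn G A u) :
    ∃ x ∈ A, G.Adj u x ∧ x ≠ w ∧ ¬G.Adj w x := by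
  classical
  by_contra hc
  have h1 : degIn G (A.erase w) u ≤ degIn G (A.erase u) w := by
    refine card_le_card fun x hx => ?_
    simp only [mem_filter, mem_erase] at hx ⊢
    exact ⟨⟨hx.2.ne', hx.1.2⟩, by_contra fun c => hc ⟨x, hx.1.2, hx.2, hx.1.1, c⟩⟩
  have h2 := degIn_erase (G := G) hw u
  have h3 := degIn_erase (G := G) hu w
  rw [G.adj_comm w u] at h3
  omega

theorem gap {a : ℕ} (h : Hard G A a) {u : V} (hu : u ∈ A)
    (hm : ∀ x ∈ A, x ≠ u → degIn G A x < degIn G A u) :
    ∀ w ∈ A, w ≠ u → degIn G A w + a + 1 ≤ degIn G A u := by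
  classical
  induction a generalizing A with
  | zero => exact hm
  | succ a ih =>
    intro w₀ h0 h0'
    obtain ⟨w, hw, hw'⟩ := exists_max_image (A.erase u) (degIn G A) ⟨w₀, mem_erase.2 ⟨h0', h0⟩⟩
    obtain ⟨h1, h2⟩ := mem_erase.1 hw
    have h3 := hm w h2 h1
    obtain ⟨x, hx, p1, p2, p3⟩ := exists_private hu h2 h3
    have e1 := degIn_erase (G := G) hx u
    have e2 := degIn_erase (G := G) hx w
    rw [if_pos p1] at e1
    rw [if_neg p3] at e2
    have m1 : u ∈ A.erase x := mem_erase.2 ⟨p1.ne, hu⟩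
    have m2 : w ∈ A.erase x := mem_erase.2 ⟨p2.symm, h2⟩
    obtain ⟨-, v, hv, hv'⟩ := exists_top (h.erase x).not_good
    obtain rfl : v = u := by
      by_contra c
      have e3 := degIn_erase (G := G) hx v
      have e4 := hw' v (mem_erase.2 ⟨c, mem_of_mem_erase hv⟩)
      have e5 := hv' u m1 (Ne.symm c)
      by_cases c' : w = v
      · subst c'
        omega
      · have := hv' w m2 c'
        omega
    have e6 := ih (h.erase x) m1 hv' w m2 h1
    have e7 := hw' w₀ (mem_erase.2 ⟨h0', h0⟩)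
    omega

/-- Twice the number of edges inside `A`. -/
noncomputable def tot (G : SimpleGraph V) (A : Finset V) : ℕ := ∑ x ∈ A, degIn G A x

theorem tot_erase {v : V} (hv : v ∈ A) : tot G A = tot G (A.erase v) + 2 * degIn G A v := by
  classical
  have h1 := degIn_erase (G := G) hv v
  rw [if_neg (G.irrefl), add_zero] at h1
  have h2 : ∑ x ∈ A.erase v, (if G.Adj x v then 1 else 0) = degIn G (A.erase v) v := by
    rw [degIn, card_filter]
    exact sum_congr rfl fun x _ => by simp only [G.adj_comm x v]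
  rw [tot, tot, ← add_sum_erase _ _ hv, ← sum_congr rfl fun x _ => degIn_erase (G := G) hv x,
    sum_add_distrib, h2]
  omega

omit [DecidableEq V] in
theorem degIn_lt {v : V} (hv : v ∈ A) : degIn G A v < A.card := by
  classical
  exact card_lt_card ⟨filter_subset _ _, fun c => G.irrefl (mem_filter.1 (c hv)).2⟩

theorem tot_le {d : ℕ} (h : Degen d G) (A : Finset V) :
    tot G A ≤ 2 * ∑ i ∈ range A.card, min i d := by
  induction hn : A.card generalizing A with
  | zero => simp [tot, card_eq_zero.1 hn]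
  | succ n ih =>
    obtain ⟨v, hv, hd⟩ := h A (card_pos.1 (by omega))
    have h1 := ih (A.erase v) (by rw [card_erase_of_mem hv, hn]; rfl)
    have h2 := degIn_lt (G := G) hv
    rw [tot_erase hv, sum_range_succ]
    omega

theorem low {t : ℕ} (h : Hard G A t) : (∃ u ∈ A, D t ≤ degIn G A u) ∧
    2 * ∑ a ∈ range (t + 1), D a ≤ tot G A ∧ (1 ≤ t → D t + 2 ≤ A.card) := by
  classical
  induction t generalizing A with
  | zero =>
    obtain ⟨h2, u, hu, hm⟩ := exists_top h.not_good
    have h3 : 2 ≤ degIn G A u := by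
      obtain ⟨w, hw⟩ : (A.erase u).Nonempty := card_pos.1 (by rw [card_erase_of_mem hu]; omega)
      have h4 := hm w (mem_of_mem_erase hw) (mem_erase.1 hw).1
      obtain ⟨x, hx, p1, -⟩ := exists_private hu (mem_of_mem_erase hw) h4
      have h5 := hm x hx p1.ne'
      have h6 := degIn_erase (G := G) hu x
      rw [if_pos p1.symm] at h6
      omega
    have h4 := tot_erase (G := G) hu
    exact ⟨⟨u, hu, h3⟩, by rw [sum_range_one, D_zero]; omega, fun c => absurd c (by omega)⟩
  | succ t ih =>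
    obtain ⟨-, u, hu, hm⟩ := exists_top h.not_good
    obtain ⟨⟨w, hw, h1⟩, h2, -⟩ := ih (h.erase u)
    obtain ⟨h3, h4⟩ := mem_erase.1 hw
    have h5 := gap h hu hm w h4 h3
    have h6 := degIn_erase (G := G) hu w
    have h7 := degIn_erase (G := G) h4 u
    have h8 := degIn_lt (G := G) (mem_erase.2 ⟨h3.symm, hu⟩ : u ∈ A.erase w)
    have h9 := tot_erase (G := G) hu
    have h10 := card_erase_add_one h4
    rw [G.adj_comm w u] at h6
    rw [sum_range_succ, D_succ]
    exact ⟨⟨u, hu, by omega⟩, by omega, fun _ => by omega⟩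

end Pool.Agent.Lib.MP_fe24f9_co.Dg
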