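import Pool.Agent.Lib.MP_fe24f9_co.Dg.Low

/-! Staircase graphs need many deletions. -/

set_option autoImplicit false

namespace Pool.Agent.Lib.MP_fe24f9_co.Dg

open Finset

theorem D_le {a b : ℕ} (h : a ≤ b) : D a + (b - a) ≤ D b := by
  induction b, h using Nat.le_induction with
  | base => omega
  | succ b h ih =>
    rw [D_succ]
    omega

theorem D_ge (a : ℕ) : a + 2 ≤ D a := by
  have := D_le (Nat.zero_le a)
  rw [D_zero] at this
  omega

/-- The vertices `0, …, t` are joined to the sets `A i`. -/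
def stair (t : ℕ) (A : ℕ → Finset ℕ) : SimpleGraph ℕ :=
  SimpleGraph.fromRel fun x y => x ≤ t ∧ y ∈ A x

theorem stair_hard {t n : ℕ} {A : ℕ → Finset ℕ} (hn : t < n) (hA : ∀ i ≤ t, (A i).card = D (t - i))
    (hl : ∀ i ≤ t, ∀ y ∈ A i, (i + 2 ≤ y ∨ t < y) ∧ y < n) :
    Hard (stair t A) (range n) t := by
  classical
  intro B hB
  have ex : ∃ i, i ≤ t ∧ i ∉ B := by
    by_contra hc
    have : range (t + 1) ⊆ B := fun i hi =>
      by_contra fun c => hc ⟨i, Nat.lt_succ_iff.1 (mem_range.1 hi), c⟩
    have := card_le_card this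
    rw [card_range] at this
    omega
  obtain ⟨i, ⟨hi, hi'⟩, hm⟩ : ∃ i, (i ≤ t ∧ i ∉ B) ∧ ∀ j < i, j ∈ B :=
    ⟨Nat.find ex, Nat.find_spec ex, fun j hj => by_contra fun c =>
      Nat.find_min ex hj ⟨hj.le.trans (Nat.find_spec ex).1, c⟩⟩
  have h1 : D (t - i) ≤ degIn (stair t A) (range n \ B) i + (t - i) := by
    have e1 : A i ⊆ (range n \ B).filter ((stair t A).Adj i) ∪ B \ range i := fun y hy => by
      have := hl i hi y hy
      by_cases c : y ∈ B
      · exact mem_union_right _ (mem_sdiff.2 ⟨c, fun c' => by have := mem_range.1 c'; omega⟩)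
      · exact mem_union_left _ (mem_filter.2 ⟨mem_sdiff.2 ⟨mem_range.2 this.2, c⟩,
          (SimpleGraph.fromRel_adj _ _ _).2 ⟨by omega, Or.inl ⟨hi, hy⟩⟩⟩)
    have e2 := (card_le_card e1).trans (card_union_le _ _)
    rw [hA i hi, card_sdiff_of_subset fun j hj => hm j (mem_range.1 hj), card_range] at e2
    unfold degIn
    omega
  have h2 : ∀ w ∈ range n \ B, w ≠ i → degIn (stair t A) (range n \ B) w + (t - i) < D (t - i) := by
    intro w hw hne
    have hw' : i < w := lt_of_le_of_ne (not_lt.1 fun c => (mem_sdiff.1 hw).2 (hm w c)) hne.symm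
    have e1 : (range n \ B).filter ((stair t A).Adj w) ⊆
        (if w ≤ t then A w else ∅) ∪ Ico i (if w ≤ t then w - 1 else t + 1) := fun y hy => by
      obtain ⟨p1, p2⟩ := mem_filter.1 hy
      rcases ((SimpleGraph.fromRel_adj _ _ _).1 p2).2 with c | c
      · exact mem_union_left _ (by rw [if_pos c.1]; exact c.2)
      · have := hl y c.1 w c.2
        have := c.1
        exact mem_union_right _ (mem_Ico.2
          ⟨not_lt.1 fun c' => (mem_sdiff.1 p1).2 (hm y c'), by split_ifs <;> omega⟩)
    have e2 := (card_le_card e1).trans (card_union_le _ _)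
    rw [Nat.card_Ico] at e2
    unfold degIn
    split_ifs at e2 with c
    · have e3 := D_le (show t - w ≤ t - i - 1 by omega)
      have e4 := D_succ (t - i - 1)
      rw [show t - i - 1 + 1 = t - i by omega] at e4
      rw [hA w c] at e2
      omega
    · rw [card_empty] at e2
      rcases Nat.eq_zero_or_pos (t - i) with c' | c'
      · rw [c', D_zero]
        omega
      · have e3 := D_ge (t - i - 1)
        have e4 := D_succ (t - i - 1)
        rw [show t - i - 1 + 1 = t - i by omega] at e4
        omega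
  have h3 : i ∈ range n \ B := mem_sdiff.2 ⟨mem_range.2 (by omega), hi'⟩
  rintro (c | ⟨u, hu, w, hw, hne, p1, p2⟩)
  · have e1 := degIn_lt (G := stair t A) h3
    rcases Nat.eq_zero_or_pos (t - i) with c' | c'
    · rw [c', D_zero] at h1
      omega
    · have e4 := D_succ (t - i - 1)
      rw [show t - i - 1 + 1 = t - i by omega] at e4
      omega
  · by_cases c : u = i
    · have := h2 w hw (c ▸ hne.symm)
      have := p2 i h3
      omega
    · have := h2 u hu c
      have := p1 i h3
      omega

section map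

variable {V W : Type} (e : V ↪ W) (G : SimpleGraph W)

theorem degIn_map (A : Finset V) (v : V) : degIn (G.comap e) A v = degIn G (A.map e) (e v) := by
  classical
  rw [degIn, degIn, filter_map, card_map]
  exact congrArg _ (filter_congr_decidable _ _ _)

theorem good_map {A : Finset V} (h : Good (G.comap e) A) : Good G (A.map e) := by
  rcases h with h | ⟨u, hu, w, hw, hne, p1, p2⟩
  · exact Or.inl (by rwa [card_map])
  · refine Or.inr ⟨e u, mem_map_of_mem _ hu, e w, mem_map_of_mem _ hw, e.injective.ne hne, ?_, ?_⟩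
    all_goals
      intro x hx
      obtain ⟨y, hy, rfl⟩ := mem_map.1 hx
      rw [← degIn_map, ← degIn_map]
    exacts [p1 y hy, p2 y hy]

theorem degen_map {d : ℕ} (h : Degen d G) : Degen d (G.comap e) := fun A hA => by
  obtain ⟨v, hv, hd⟩ := h (A.map e) (map_nonempty.2 hA)
  obtain ⟨y, hy, rfl⟩ := mem_map.1 hv
  exact ⟨y, hy, (degIn_map e G A y).trans_le hd⟩

end map

theorem exists_fin {d t n : ℕ} {G : SimpleGraph ℕ} (h : Degen d G) (h' : Hard G (range n) t) :
    ∃ H : SimpleGraph (Fin n), Degen d H ∧ t + 1 ≤ fdel H :=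
  ⟨G.comap Fin.valEmbedding, degen_map _ _ h, (lt_fdel _).2 fun B hB c => by
    have := good_map _ _ c
    rw [Finset.map_sdiff, Fin.map_valEmbedding_univ, Nat.Iio_eq_range] at this
    exact h' _ (by rwa [card_map]) this⟩

end Pool.Agent.Lib.MP_fe24f9_co.Dg
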